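import Mathlib

set_option autoImplicit false

/-!
# A hypo-unique-domination graph with a cut-vertex

The graph has 19 vertices: two copies of a graph on 10 vertices (a pentagon `p₀ … p₄` together with
five further vertices `oᵢ`, where `oᵢ` is adjacent to `pᵢ, pᵢ₊₂, pᵢ₊₃`) glued at one vertex `o₀`.
-/

namespace Pool.Agent.Results.MP_4402ee_co.CutVertexExample

/-- `D` is a dominating set of `G`: every vertex outside `D` has a neighbour in `D`. -/
def IsDominating {V : Type} (G : SimpleGraph V) (D : Finset V) : Prop :=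
  ∀ v, v ∉ D → ∃ u ∈ D, G.Adj u v

/-- `D` is a `γ`-set of `G`: a dominating set of minimum size. -/
def IsGammaSet {V : Type} (G : SimpleGraph V) (D : Finset V) : Prop :=
  IsDominating G D ∧ ∀ E : Finset V, IsDominating G E → D.card ≤ E.card

/-- `G` is a hypo-UD graph: it has at least two distinct `γ`-sets, while every vertex-deleted
subgraph has exactly one `γ`-set. -/
def IsHypoUD {V : Type} (G : SimpleGraph V) : Prop :=
  (∃ D E : Finset V, IsGammaSet G D ∧ IsGammaSet G E ∧ D ≠ E) ∧
    ∀ v : V, ∃! D : Finset {u : V | u ≠ v}, IsGammaSet (G.induce {u : V | u ≠ v}) D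

/-- `v` is a cut-vertex of `G`: `G - v` has more connected components than `G`. -/
def IsCutVertex {V : Type} (G : SimpleGraph V) (v : V) : Prop :=
  Nat.card G.ConnectedComponent < Nat.card (G.induce {u : V | u ≠ v}).ConnectedComponent

/-- closed neighbourhoods as bit masks -/
def mk (a : Fin 19) : ℕ :=
  [435, 839, 686, 380, 729, 13357, 90, 149, 267, 534, 216096, 433152, 342048, 192544, 386048,
    59392, 87040, 142336, 284672].getD a.val 0

/-- the unique minimum dominating sets of the vertex-deleted subgraphs, as bit masks -/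
def tm (v : Fin 19) : ℕ :=
  [18444, 18456, 18449, 18435, 18438, 18450, 18437, 18442, 18452, 18441, 12306, 24594, 17426, 3090,
    6162, 5138, 10258, 20498, 9234].getD v.val 0

/-- the graph -/
def G : SimpleGraph (Fin 19) where
  Adj a b := a ≠ b ∧ (mk a).testBit b.val = true
  symm := ⟨by decide +kernel⟩
  loopless := ⟨fun a h => h.1 rfl⟩

instance : DecidableRel G.Adj := fun a b =>
  inferInstanceAs (Decidable (a ≠ b ∧ (mk a).testBit b.val = true))

/-- the minimum dominating sets -/
def T (v : Fin 19) : Finset (Fin 19) := Finset.univ.filter fun x => (tm v).testBit x.val = true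

/-- the test at a leaf of the enumeration -/
def leaf (U S : ℕ) : Bool :=
  (List.finRange 19).all fun v => !(Nat.beq (Nat.lor U (Nat.shiftLeft 1 v.val)) 524287) ||
    Nat.beq S (tm v)

/-- enumeration of the subsets of size at most `k` of a list -/
def enum : List (Fin 19) → ℕ → ℕ → ℕ → Bool
  | [], _, U, S => leaf U S
  | _ :: l, 0, U, S => enum l 0 U S
  | a :: l, k + 1, U, S => enum l (k + 1) U S &&
      enum l k (Nat.lor U (mk a)) (Nat.lor S (Nat.shiftLeft 1 a.val))

theorem enum_ok : enum (List.finRange 19) 4 0 0 = true := by decide +kernel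

theorem shift_bit (a j : ℕ) : (Nat.shiftLeft 1 a).testBit j = true ↔ a = j := by
  have : Nat.shiftLeft 1 a = 2 ^ a := by
    change 1 <<< a = 2 ^ a
    rw [Nat.one_shiftLeft]
  rw [this, Nat.testBit_two_pow]
  simp

theorem lor_bit (x y j : ℕ) : (Nat.lor x y).testBit j = true ↔
    x.testBit j = true ∨ y.testBit j = true := by
  change (x ||| y).testBit j = true ↔ _
  rw [Nat.testBit_or, Bool.or_eq_true]

theorem enum_sound : ∀ (l : List (Fin 19)) (k U S : ℕ), enum l k U S = true →
    ∀ D : Finset (Fin 19), (∀ x ∈ D, x ∈ l) → D.card ≤ k →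
      ∃ U' S' : ℕ, (∀ j, U'.testBit j = true ↔ (U.testBit j = true ∨ ∃ x ∈ D, (mk x).testBit j = true)) ∧
        (∀ j, S'.testBit j = true ↔ (S.testBit j = true ∨ ∃ x ∈ D, x.val = j)) ∧ leaf U' S' = true
  | [], k, U, S, h, D, hD, hk => by
      have : D = ∅ := Finset.eq_empty_of_forall_notMem fun x hx => by simpa using hD x hx
      subst this
      exact ⟨U, S, by simp, by simp, by simpa [enum] using h⟩
  | a :: l, k, U, S, h, D, hD, hk => by
      by_cases ha : a ∈ D
      · have hc : 0 < D.card := Finset.card_pos.2 ⟨a, ha⟩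
        obtain ⟨k', rfl⟩ : ∃ k', k = k' + 1 := ⟨k - 1, by omega⟩
        rw [enum, Bool.and_eq_true] at h
        have hD' : ∀ x ∈ D.erase a, x ∈ l := by
          intro x hx
          rw [Finset.mem_erase] at hx
          rcases List.mem_cons.1 (hD x hx.2) with h1 | h1
          · exact absurd h1 hx.1
          · exact h1
        have hk' : (D.erase a).card ≤ k' := by
          rw [Finset.card_erase_of_mem ha]; omega
        obtain ⟨U', S', h1, h2, h3⟩ := enum_sound l k' _ _ h.2 (D.erase a) hD' hk'
        refine ⟨U', S', fun j => ?_, fun j => ?_, h3⟩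
        · rw [h1, lor_bit]
          constructor
          · rintro ((h4 | h4) | ⟨x, hx, h4⟩)
            · exact Or.inl h4
            · exact Or.inr ⟨a, ha, h4⟩
            · exact Or.inr ⟨x, (Finset.mem_erase.1 hx).2, h4⟩
          · rintro (h4 | ⟨x, hx, h4⟩)
            · exact Or.inl (Or.inl h4)
            · by_cases hxa : x = a
              · exact Or.inl (Or.inr (hxa ▸ h4))
              · exact Or.inr ⟨x, Finset.mem_erase.2 ⟨hxa, hx⟩, h4⟩
        · rw [h2, lor_bit, shift_bit]
          constructor
          · rintro ((h4 | h4) | ⟨x, hx, h4⟩)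
            · exact Or.inl h4
            · exact Or.inr ⟨a, ha, h4⟩
            · exact Or.inr ⟨x, (Finset.mem_erase.1 hx).2, h4⟩
          · rintro (h4 | ⟨x, hx, h4⟩)
            · exact Or.inl (Or.inl h4)
            · by_cases hxa : x = a
              · exact Or.inl (Or.inr (hxa ▸ h4))
              · exact Or.inr ⟨x, Finset.mem_erase.2 ⟨hxa, hx⟩, h4⟩
      · have hD' : ∀ x ∈ D, x ∈ l := by
          intro x hx
          rcases List.mem_cons.1 (hD x hx) with h1 | h1
          · exact absurd (h1 ▸ hx) ha
          · exact h1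
        have h' : enum l k U S = true := by
          cases k with
          | zero => rwa [enum] at h
          | succ k => rw [enum, Bool.and_eq_true] at h; exact h.1
        exact enum_sound l k U S h' D hD' hk

theorem mk_lt : ∀ x : Fin 19, mk x < 2 ^ 19 := by decide +kernel

/-- a set of at most four vertices dominating all vertices except possibly `v` is `T v` -/
theorem core (v : Fin 19) (D : Finset (Fin 19)) (hc : D.card ≤ 4)
    (hD : ∀ u, u ≠ v → u ∈ D ∨ ∃ w ∈ D, G.Adj w u) : D = T v := by
  obtain ⟨U, S, h1, h2, h3⟩ := enum_sound _ _ _ _ enum_ok D (fun x _ => List.mem_finRange x) hc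
  rw [leaf, List.all_eq_true] at h3
  have h4 := h3 v (List.mem_finRange v)
  have self : ∀ x : Fin 19, (mk x).testBit x.val = true := by decide +kernel
  have hU : Nat.lor U (Nat.shiftLeft 1 v.val) = 524287 := by
    refine Nat.eq_of_testBit_eq fun j => ?_
    have e : (524287 : ℕ) = 2 ^ 19 - 1 := by norm_num
    rw [e, Nat.testBit_two_pow_sub_one]
    rw [Bool.eq_iff_iff, lor_bit, shift_bit, h1, decide_eq_true_iff]
    constructor
    · rintro ((h5 | ⟨x, _, h5⟩) | h5)
      · simp at h5
      · by_contra hj
        have : (mk x).testBit j = false :=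
          Nat.testBit_lt_two_pow ((mk_lt x).trans_le (Nat.pow_le_pow_right (by norm_num) (by omega)))
        rw [this] at h5
        exact absurd h5 (by simp)
      · omega
    · intro hj
      by_cases hv : v.val = j
      · exact Or.inr hv
      · left; right
        rcases hD ⟨j, hj⟩ (fun h => hv (by rw [← h])) with h5 | ⟨w, hw, h5⟩
        · exact ⟨_, h5, self _⟩
        · exact ⟨w, hw, h5.2⟩
  rw [hU] at h4
  simp only [Bool.or_eq_true, Bool.not_eq_true'] at h4
  have hS : S = tm v := by
    rcases h4 with h4 | h4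
    · exact absurd h4 (by decide)
    · exact Nat.eq_of_beq_eq_true (by simpa using h4)
  ext x
  rw [T, Finset.mem_filter, ← hS, h2]
  constructor
  · intro hx; exact ⟨Finset.mem_univ _, Or.inr ⟨x, hx, rfl⟩⟩
  · rintro ⟨-, h5 | ⟨y, hy, h5⟩⟩
    · simp at h5
    · rwa [← Fin.ext h5]

theorem T_card : ∀ v, (T v).card = 4 := by decide +kernel

theorem T_notMem : ∀ v, v ∉ T v := by decide +kernel

theorem T_dom : ∀ v u : Fin 19, u ≠ v → u ∈ T v ∨ ∃ w ∈ T v, G.Adj w u := by decide +kernel

theorem T_not_dom : ∀ v : Fin 19, ¬ ∃ w ∈ T v, G.Adj w v := by decide +kernel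

/-- uniqueness for vertex-deleted subgraphs -/
theorem deleted (v : Fin 19) : ∃! D : Finset {u : Fin 19 | u ≠ v},
    IsGammaSet (G.induce {u : Fin 19 | u ≠ v}) D := by
  classical
  let emb : {u : Fin 19 | u ≠ v} ↪ Fin 19 := Function.Embedding.subtype _
  have key : ∀ D : Finset {u : Fin 19 | u ≠ v}, IsDominating (G.induce {u : Fin 19 | u ≠ v}) D →
      D.card ≤ 4 → D.map emb = T v := by
    intro D hD hc
    refine core v _ (by rwa [Finset.card_map]) fun u hu => ?_
    by_cases h : (⟨u, hu⟩ : {u : Fin 19 | u ≠ v}) ∈ D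
    · exact Or.inl (Finset.mem_map.2 ⟨_, h, rfl⟩)
    · obtain ⟨w, hw, ha⟩ := hD _ h
      exact Or.inr ⟨w.val, Finset.mem_map.2 ⟨w, hw, rfl⟩, ha⟩
  -- the set T v as a set of vertices of the subgraph
  let D₀ : Finset {u : Fin 19 | u ≠ v} := Finset.univ.filter fun u => u.val ∈ T v
  have hmap : D₀.map emb = T v := by
    ext x
    rw [Finset.mem_map]
    constructor
    · rintro ⟨u, hu, rfl⟩
      exact (Finset.mem_filter.1 hu).2
    · intro hx
      have hxv : x ≠ v := fun h => T_notMem v (h ▸ hx)
      exact ⟨⟨x, hxv⟩, Finset.mem_filter.2 ⟨Finset.mem_univ _, hx⟩, rfl⟩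
  have hcard : D₀.card = 4 := by
    rw [← T_card v, ← hmap, Finset.card_map]
  have hdom : IsDominating (G.induce {u : Fin 19 | u ≠ v}) D₀ := by
    intro u hu
    rcases T_dom v u.val u.property with h | ⟨w, hw, ha⟩
    · exact absurd (show u ∈ D₀ from Finset.mem_filter.2 ⟨Finset.mem_univ _, h⟩) hu
    · have hwv : w ≠ v := fun h => T_notMem v (h ▸ hw)
      exact ⟨⟨w, hwv⟩, Finset.mem_filter.2 ⟨Finset.mem_univ _, hw⟩, ha⟩
  have uniq : ∀ E, IsDominating (G.induce {u : Fin 19 | u ≠ v}) E → E.card ≤ 4 → E = D₀ := by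
    intro E hE hc
    have := key E hE hc
    rw [← hmap] at this
    exact Finset.map_injective emb this
  refine ⟨D₀, ⟨hdom, fun E hE => ?_⟩, fun E hE => ?_⟩
  · by_contra hc
    have hc' : E.card ≤ 4 := by omega
    have := uniq E hE hc'
    rw [this] at hc
    exact hc le_rfl
  · exact uniq E hE.1 (by rw [← hcard]; exact hE.2 _ hdom)

theorem five_le (D : Finset (Fin 19)) (hD : IsDominating G D) : 5 ≤ D.card := by
  by_contra hc
  have hc' : D.card ≤ 4 := by omega
  obtain ⟨v, hv⟩ : ∃ v, v ∉ D := by
    by_contra h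
    push Not at h
    have : D = Finset.univ := Finset.eq_univ_of_forall h
    rw [this] at hc'
    simp at hc'
  have h1 := core v D hc' fun u _ => by
    by_cases h : u ∈ D
    · exact Or.inl h
    · exact Or.inr (hD u h)
  have h2 := hD v hv
  rw [h1] at h2
  exact T_not_dom v h2

theorem two_sets : ∃ D E : Finset (Fin 19), IsGammaSet G D ∧ IsGammaSet G E ∧ D ≠ E := by
  have h0 : ∀ x : Fin 19, (x = 0 ∨ G.Adj x 0) → IsDominating G (insert x (T 0)) := by
    intro x hx u hu
    rw [Finset.mem_insert, not_or] at hu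
    by_cases hu0 : u = 0
    · subst hu0
      rcases hx with h | h
      · exact absurd h.symm hu.1
      · exact ⟨x, Finset.mem_insert_self _ _, h⟩
    · rcases T_dom 0 u hu0 with h | ⟨w, hw, ha⟩
      · exact absurd h hu.2
      · exact ⟨w, Finset.mem_insert_of_mem hw, ha⟩
  refine ⟨insert 0 (T 0), insert 1 (T 0), ⟨h0 0 (Or.inl rfl), fun E hE => ?_⟩,
    ⟨h0 1 (Or.inr (by decide +kernel)), fun E hE => ?_⟩, by decide +kernel⟩
  · exact le_trans (by decide +kernel) (five_le E hE)
  · exact le_trans (by decide +kernel) (five_le E hE)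

/-- the graph is connected: every vertex is joined to vertex `0` by a path of length at most 6 -/
theorem conn : G.Connected := by
  have key : ∀ x : Fin 19, G.Reachable x 0 := by
    have a1 : ∀ x y : Fin 19, G.Adj x y → G.Reachable y 0 → G.Reachable x 0 :=
      fun x y h h' => h.reachable.trans h'
    have r0 : G.Reachable 0 0 := SimpleGraph.Reachable.refl _
    have r1 := a1 1 0 (by decide +kernel) r0
    have r4 := a1 4 0 (by decide +kernel) r0
    have r5 := a1 5 0 (by decide +kernel) r0
    have r7 := a1 7 0 (by decide +kernel) r0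
    have r8 := a1 8 0 (by decide +kernel) r0
    have r2 := a1 2 1 (by decide +kernel) r1
    have r6 := a1 6 1 (by decide +kernel) r1
    have r9 := a1 9 1 (by decide +kernel) r1
    have r3 := a1 3 4 (by decide +kernel) r4
    have r10 := a1 10 5 (by decide +kernel) r5
    have r12 := a1 12 5 (by decide +kernel) r5
    have r13 := a1 13 5 (by decide +kernel) r5
    have r11 := a1 11 10 (by decide +kernel) r10
    have r14 := a1 14 10 (by decide +kernel) r10
    have r16 := a1 16 10 (by decide +kernel) r10
    have r17 := a1 17 10 (by decide +kernel) r10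
    have r15 := a1 15 11 (by decide +kernel) r11
    have r18 := a1 18 11 (by decide +kernel) r11
    intro x
    fin_cases x <;> assumption
  have : Nonempty (Fin 19) := ⟨0⟩
  exact ⟨fun x y => (key x).trans (key y).symm⟩

/-- `5` is a cut-vertex -/
theorem cut : IsCutVertex G 5 := by
  classical
  have h1 : Nat.card G.ConnectedComponent = 1 := by
    have := conn.preconnected.subsingleton_connectedComponent
    have : Nonempty G.ConnectedComponent := ⟨G.connectedComponentMk 0⟩
    exact Nat.card_unique
  rw [IsCutVertex, h1, Nat.card_eq_fintype_card]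
  rw [Fintype.one_lt_card_iff]
  let f : {u : Fin 19 | u ≠ 5} → Bool := fun u => decide (u.val.val < 10)
  have hf : ∀ u w : {u : Fin 19 | u ≠ 5}, (G.induce {u : Fin 19 | u ≠ 5}).Reachable u w →
      f u = f w := by
    intro u w h
    obtain ⟨p⟩ := h
    induction p with
    | nil => rfl
    | cons h p ih =>
      rw [← ih]
      rename_i a b c
      have hab : ∀ a b : Fin 19, a ≠ 5 → b ≠ 5 → G.Adj a b →
          decide (a.val < 10) = decide (b.val < 10) := by decide +kernel
      exact hab a.val b.val a.property b.property h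
  refine ⟨SimpleGraph.connectedComponentMk _ ⟨0, by decide⟩,
    SimpleGraph.connectedComponentMk _ ⟨10, by decide⟩, fun h => ?_⟩
  have := hf _ _ (SimpleGraph.ConnectedComponent.eq.1 h)
  simp [f] at this

/-- **There is a hypo-UD graph with a cut-vertex.** -/
theorem result : ∃ (n : ℕ) (G : SimpleGraph (Fin n)), IsHypoUD G ∧ ∃ v, IsCutVertex G v :=
  ⟨19, G, ⟨two_sets, deleted⟩, 5, cut⟩

end Pool.Agent.Results.MP_4402ee_co.CutVertexExample
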